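import Pool.Agent.P.MP_9cbceb_lc.R.All

namespace Pool.Agent.Results.MP_9cbceb_lc.ExpSqrtTradeoff

open Pool.Agent.P.MP_9cbceb_lc.Q

/-- A polynomial-time `ρ(n)`-approximation of weighted sparsest cut decides every language in
`NP` in time `B = (|x| + 2) ^ (b * 2 ^ (a * (log C + 1) ^ 2))` as soon as `ρ B ≤ C`. -/
theorem result : ∃ a : ℕ, 0 < a ∧
    ∀ (ρ : ℕ → ℝ) (A : ℕ × List (ℕ × ℕ × ℚ) × List (ℕ × ℕ × ℚ) → List Bool), Monotone ρ →
      N68a2faeb.IsPolyTime A → ApproxF ρ A → ∀ L ∈ N68a2faeb.NP,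
      ∃ (b : ℕ) (M : Turing.TM2ComputableAux Bool Bool), ∀ (x : List Bool) (C : ℕ),
        ρ ((x.length + 2) ^ (b * 2 ^ (a * (Nat.log 2 C + 1) ^ 2))) ≤ C →
        Outputs M ((x.flatMap fun c => [true, c]) ++ false :: List.replicate C true) (L x)
          ((x.length + 2) ^ (b * 2 ^ (a * (Nat.log 2 C + 1) ^ 2))) :=
  Pool.Agent.P.MP_9cbceb_lc.R.fin3_thm

end Pool.Agent.Results.MP_9cbceb_lc.ExpSqrtTradeoff
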